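import Pool.Agent.H.MP_96aaf1_al.B

namespace Pool.Agent.Results.MP_96aaf1_al.LeftCong

open Pool.Agent.H.MP_96aaf1_al

universe u w

theorem result {V : Type u} (Γ : SimpleGraph V) (M : V → Type w) [∀ v, Monoid (M v)]
    (H : ∀ (v : V) (a b c : M v), Rt a b → Rt (c * a) (c * b)) :
    ∀ a b c : GP Γ M, Rt a b → Rt (c * a) (c * b) :=
  fun a b c h => main H a b c h

end Pool.Agent.Results.MP_96aaf1_al.LeftCong
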